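import Mathlib

/-!
# Minimal sets of nonexpansive actions carrying an invariant mean
-/

set_option autoImplicit false
set_option linter.unusedSectionVars false
set_option linter.deprecated false

open Filter Topology Set

namespace Pool.Agent.Y972.WAP

variable {X S : Type*} [TopologicalSpace X] [CompactSpace X] [T2Space X] [Mul S] [Nonempty S]

/-- invariance under all maps -/
def Invt (T : S → X → X) (K : Set X) : Prop := ∀ s, ∀ x ∈ K, T s x ∈ K

/-- a minimal nonempty closed invariant set -/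
structure IsMin (T : S → X → X) (K : Set X) : Prop where
  closed : IsClosed K
  nonempty : K.Nonempty
  inv : Invt T K
  min : ∀ K' : Set X, IsClosed K' → K'.Nonempty → Invt T K' → K' ⊆ K → K' = K

/-- an invariant mean over the orbit of `x₀` -/
structure IsMean (T : S → X → X) (hT : ∀ s, Continuous (T s)) (x₀ : X) (Λ : C(X, ℝ) →ₗ[ℝ] ℝ) :
    Prop where
  pos : ∀ h : C(X, ℝ), (∀ s, 0 ≤ h (T s x₀)) → 0 ≤ Λ h
  one : Λ 1 = 1
  inv : ∀ (a : S) (h : C(X, ℝ)), Λ (h.comp ⟨T a, hT a⟩) = Λ h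

section
variable {T : S → X → X} {hT : ∀ s, Continuous (T s)}

theorem orbit_closure (hT : ∀ s, Continuous (T s)) (hmul : ∀ s t x, T (s * t) x = T s (T t x))
    {K : Set X} (hK : IsMin T K) {x : X} (hx : x ∈ K) :
    closure (range fun t => T t x) = K := by
  apply hK.min
  · exact isClosed_closure
  · exact (range_nonempty _).closure
  · intro s y hy
    have h1 : MapsTo (T s) (range fun t => T t x) (range fun t => T t x) := by
      rintro _ ⟨t, rfl⟩
      exact ⟨s * t, hmul s t x⟩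
    exact (h1.closure (hT s)) hy
  · apply closure_minimal _ hK.closed
    rintro _ ⟨t, rfl⟩
    exact hK.inv t x hx

theorem exists_cover (hT : ∀ s, Continuous (T s)) (hmul : ∀ s t x, T (s * t) x = T s (T t x))
    {K : Set X} (hK : IsMin T K) {V : Set X} (hV : IsOpen V) (hne : (V ∩ K).Nonempty) :
    ∃ F : Finset S, ∀ x ∈ K, ∃ t ∈ F, T t x ∈ V ∩ K := by
  have h1 : ∀ x ∈ K, ∃ t, T t x ∈ V := by
    intro x hx
    obtain ⟨z, hzV, hzK⟩ := hne
    rw [← orbit_closure hT hmul hK hx] at hzK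
    obtain ⟨_, hw, ⟨t, rfl⟩⟩ := mem_closure_iff.1 hzK V hV hzV
    exact ⟨t, hw⟩
  obtain ⟨F, hF⟩ := hK.closed.isCompact.elim_finite_subcover (fun t : S => T t ⁻¹' V)
    (fun t => hV.preimage (hT t)) (by
      intro x hx
      obtain ⟨t, ht⟩ := h1 x hx
      exact mem_iUnion.2 ⟨t, ht⟩)
  refine ⟨F, fun x hx => ?_⟩
  have := hF hx
  simp only [mem_iUnion, exists_prop] at this
  obtain ⟨t, ht, htx⟩ := this
  exact ⟨t, ht, htx, hK.inv t x hx⟩

theorem mass {K : Set X} (hK : IsMin T K) {x₀ : X} (hx₀ : x₀ ∈ K) {Λ : C(X, ℝ) →ₗ[ℝ] ℝ}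
    (hΛ : IsMean T hT x₀ Λ) {V : Set X} {F : Finset S} (hF : ∀ x ∈ K, ∃ t ∈ F, T t x ∈ V ∩ K)
    (h : C(X, ℝ)) (hh : ∀ x, 0 ≤ h x) (c : ℝ) (hc : ∀ x ∈ V ∩ K, c ≤ h x) :
    c ≤ F.card * Λ h := by
  classical
  let g : C(X, ℝ) := ∑ t ∈ F, h.comp ⟨T t, hT t⟩
  have hg : ∀ x, g x = ∑ t ∈ F, h (T t x) := by
    intro x
    simp [g]
  have h1 : 0 ≤ Λ (g - c • 1) := by
    apply hΛ.pos
    intro s
    obtain ⟨t, ht, htx⟩ := hF (T s x₀) (hK.inv s x₀ hx₀)
    have h2 : c ≤ h (T t (T s x₀)) := hc _ htx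
    have h3 : h (T t (T s x₀)) ≤ ∑ t ∈ F, h (T t (T s x₀)) :=
      Finset.single_le_sum (f := fun t => h (T t (T s x₀))) (fun t _ => hh _) ht
    simp only [ContinuousMap.sub_apply, ContinuousMap.smul_apply, ContinuousMap.one_apply, hg,
      smul_eq_mul, mul_one]
    linarith
  have h4 : Λ g = F.card * Λ h := by
    simp only [g, map_sum, hΛ.inv, Finset.sum_const, nsmul_eq_mul]
  rw [map_sub, map_smul, hΛ.one, smul_eq_mul, mul_one, h4] at h1
  linarith

theorem image_eq (hmul : ∀ s t x, T (s * t) x = T s (T t x)) {K : Set X} (hK : IsMin T K)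
    {x₀ : X} (hx₀ : x₀ ∈ K) {Λ : C(X, ℝ) →ₗ[ℝ] ℝ} (hΛ : IsMean T hT x₀ Λ) (s : S) :
    T s '' K = K := by
  apply subset_antisymm
  · rintro _ ⟨x, hx, rfl⟩
    exact hK.inv s x hx
  · intro z hz
    by_contra hzn
    have hcomp : IsClosed (T s '' K) := (hK.closed.isCompact.image (hT s)).isClosed
    obtain ⟨h, h0, h1, h01⟩ := exists_continuous_zero_one_of_isClosed hcomp
      (isClosed_singleton (x := z)) (disjoint_singleton_right.2 hzn)
    have hV : IsOpen {x | (1 / 2 : ℝ) < h x} := isOpen_lt continuous_const h.continuous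
    have hne : ({x | (1 / 2 : ℝ) < h x} ∩ K).Nonempty := by
      refine ⟨z, ?_, hz⟩
      have : h z = 1 := h1 rfl
      rw [mem_setOf_eq, this]
      norm_num
    obtain ⟨F, hF⟩ := exists_cover hT hmul hK hV hne
    have h2 := mass hK hx₀ hΛ hF h (fun x => (h01 x).1) (1 / 2) (fun x hx => le_of_lt hx.1)
    have h3 : Λ h = 0 := by
      rw [← hΛ.inv s h]
      have h4 : 0 ≤ Λ (h.comp ⟨T s, hT s⟩) := by
        apply hΛ.pos
        intro t
        exact (h01 _).1
      have h5 : 0 ≤ Λ (-(h.comp ⟨T s, hT s⟩)) := by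
        apply hΛ.pos
        intro t
        have : h (T s (T t x₀)) = 0 := h0 ⟨_, hK.inv t x₀ hx₀, rfl⟩
        simp [this]
      rw [map_neg] at h5
      linarith
    rw [h3] at h2
    norm_num at h2

theorem exists_bumps {ι : Type*} [DecidableEq ι] (B : ι → Set X) (P : Finset ι)
    (hB : ∀ i ∈ P, IsClosed (B i)) (hdisj : ∀ i ∈ P, ∀ j ∈ P, i ≠ j → Disjoint (B i) (B j)) :
    ∃ h : ι → C(X, ℝ), (∀ i ∈ P, ∀ x, 0 ≤ h i x) ∧ (∀ i ∈ P, ∀ x ∈ B i, 1 ≤ h i x) ∧
      ∀ x, ∑ i ∈ P, h i x ≤ 1 := by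
  induction P using Finset.induction_on with
  | empty =>
    refine ⟨fun _ => 0, by simp, by simp, by simp⟩
  | insert j P hj ih =>
    obtain ⟨h, hh0, hh1, hhs⟩ := ih (fun i hi => hB i (Finset.mem_insert_of_mem hi))
      (fun i hi k hk => hdisj i (Finset.mem_insert_of_mem hi) k (Finset.mem_insert_of_mem hk))
    have hcl : IsClosed (⋃ i ∈ P, B i) :=
      isClosed_biUnion_finset fun i hi => hB i (Finset.mem_insert_of_mem hi)
    have hd : Disjoint (⋃ i ∈ P, B i) (B j) := by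
      rw [Set.disjoint_iUnion₂_left]
      intro i hi
      exact hdisj i (Finset.mem_insert_of_mem hi) j (Finset.mem_insert_self _ _) (by
        rintro rfl
        exact hj hi)
    obtain ⟨u, hu0, hu1, hu01⟩ := exists_continuous_zero_one_of_isClosed hcl
      (hB j (Finset.mem_insert_self _ _)) hd
    obtain ⟨k, hkj, hki⟩ : ∃ k : ι → C(X, ℝ), k j = u ∧ ∀ i, i ≠ j → k i = h i * (1 - u) :=
      ⟨fun i => if i = j then u else h i * (1 - u), if_pos rfl, fun i hi => if_neg hi⟩
    refine ⟨k, ?_, ?_, ?_⟩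
    · intro i hi x
      by_cases hij : i = j
      · rw [hij, hkj]
        exact (hu01 x).1
      · rw [hki i hij]
        have hiP : i ∈ P := Finset.mem_of_mem_insert_of_ne hi hij
        simp only [ContinuousMap.mul_apply, ContinuousMap.sub_apply, ContinuousMap.one_apply]
        exact mul_nonneg (hh0 i hiP x) (by linarith [(hu01 x).2])
    · intro i hi x hx
      by_cases hij : i = j
      · subst hij
        rw [hkj]
        exact (show (1 : ℝ) = u x from (hu1 hx).symm).le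
      · rw [hki i hij]
        have hiP : i ∈ P := Finset.mem_of_mem_insert_of_ne hi hij
        have : u x = 0 := hu0 (mem_biUnion (x := i) hiP hx)
        simp only [ContinuousMap.mul_apply, ContinuousMap.sub_apply, ContinuousMap.one_apply, this]
        simpa using hh1 i hiP x hx
    · intro x
      rw [Finset.sum_insert hj, hkj]
      have h1 : ∑ i ∈ P, k i x = (∑ i ∈ P, h i x) * (1 - u x) := by
        rw [Finset.sum_mul]
        refine Finset.sum_congr rfl fun i hi => ?_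
        have hij : i ≠ j := by
          rintro rfl
          exact hj hi
        rw [hki i hij]
        simp
      rw [h1]
      have h2 := hu01 x
      have h3 := hhs x
      nlinarith [h2.1, h2.2, h3]

theorem totally_bounded (hmul : ∀ s t x, T (s * t) x = T s (T t x)) {K : Set X} (hK : IsMin T K)
    {x₀ : X} (hx₀ : x₀ ∈ K) {Λ : C(X, ℝ) →ₗ[ℝ] ℝ} (hΛ : IsMean T hT x₀ Λ)
    (d : X → X → ℝ) (hd0 : ∀ x, d x x = 0) (hdsymm : ∀ x y, d x y = d y x)
    (hdtri : ∀ x y z, d x z ≤ d x y + d y z) (hdcl : ∀ y r, IsClosed {x | d x y ≤ r})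
    (hnonexp : ∀ s x y, d (T s x) (T s y) ≤ d x y) (ε : ℝ) (hε : 0 < ε)
    (hfrag : ∃ y₀ ∈ K, ∃ O : Set X, IsOpen O ∧ y₀ ∈ O ∧ ∀ z ∈ K, z ∈ O → d z y₀ ≤ ε) :
    ∃ F : Finset X, (∀ x ∈ F, x ∈ K) ∧ ∀ y ∈ K, ∃ x ∈ F, d y x ≤ 2 * ε := by
  classical
  obtain ⟨y₀, hy₀, O, hO, hy₀O, hfr⟩ := hfrag
  obtain ⟨F, hF⟩ := exists_cover hT hmul hK hO ⟨y₀, hy₀O, hy₀⟩
  -- bound for the number of separated points
  have hbound : ∀ P : Finset S, (∀ s ∈ P, ∀ t ∈ P, s ≠ t → 2 * ε < d (T s y₀) (T t y₀)) →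
      P.card ≤ F.card := by
    intro P hP
    obtain ⟨h, h0, h1, hs⟩ := exists_bumps (fun s : S => {x | d x (T s y₀) ≤ ε}) P
      (fun s _ => hdcl _ _) (by
        intro s hs t ht hst
        rw [Set.disjoint_left]
        intro z hz1 hz2
        have h1 := hP s hs t ht hst
        have h2 := hdtri (T s y₀) z (T t y₀)
        have h3 : d (T s y₀) z ≤ ε := by
          rw [hdsymm]
          exact hz1
        have h4 : d z (T t y₀) ≤ ε := hz2
        linarith)
    have h2 : ∀ s ∈ P, (1 : ℝ) ≤ F.card * Λ (h s) := by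
      intro s hs'
      rw [← hΛ.inv s (h s)]
      apply mass hK hx₀ hΛ hF
      · intro x
        exact h0 s hs' _
      · rintro x ⟨hxO, hxK⟩
        apply h1 s hs'
        exact (hnonexp s x y₀).trans (hfr x hxK hxO)
    have h3 : (P.card : ℝ) ≤ F.card * ∑ s ∈ P, Λ (h s) := by
      rw [Finset.mul_sum]
      calc (P.card : ℝ) = ∑ s ∈ P, (1 : ℝ) := by simp
        _ ≤ ∑ s ∈ P, F.card * Λ (h s) := Finset.sum_le_sum h2
    have h4 : ∑ s ∈ P, Λ (h s) ≤ 1 := by
      have h5 : 0 ≤ Λ (1 - ∑ s ∈ P, h s) := by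
        apply hΛ.pos
        intro t
        have := hs (T t x₀)
        simp only [ContinuousMap.sub_apply, ContinuousMap.one_apply, ContinuousMap.sum_apply]
        linarith
      rw [map_sub, hΛ.one, map_sum] at h5
      linarith
    have h6 : (P.card : ℝ) ≤ F.card := by
      refine h3.trans ?_
      have : (0 : ℝ) ≤ F.card := Nat.cast_nonneg _
      nlinarith
    exact_mod_cast h6
  -- a maximal separated set
  let Q : ℕ → Prop := fun n => ∃ P : Finset S,
    (∀ s ∈ P, ∀ t ∈ P, s ≠ t → 2 * ε < d (T s y₀) (T t y₀)) ∧ P.card = n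
  have hQ0 : Q 0 := ⟨∅, by simp, rfl⟩
  have hQ := Nat.findGreatest_spec (P := Q) (Nat.zero_le F.card) hQ0
  obtain ⟨P, hP, hPc⟩ := hQ
  have hmax : ∀ s, ∃ t ∈ P, d (T s y₀) (T t y₀) ≤ 2 * ε := by
    intro s
    by_contra hcon
    push Not at hcon
    have hsP : s ∉ P := by
      intro hs
      have := hcon s hs
      rw [hd0] at this
      linarith
    have hQ' : Q (P.card + 1) := by
      refine ⟨insert s P, ?_, Finset.card_insert_of_notMem hsP⟩
      intro a ha b hb hab
      rw [Finset.mem_insert] at ha hb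
      rcases ha with rfl | ha
      · rcases hb with rfl | hb
        · exact absurd rfl hab
        · exact hcon b hb
      · rcases hb with rfl | hb
        · rw [hdsymm]
          exact hcon a ha
        · exact hP a ha b hb hab
    have hle : P.card + 1 ≤ F.card := by
      obtain ⟨P', hP', hc'⟩ := hQ'
      rw [← hc']
      exact hbound P' hP'
    have := Nat.le_findGreatest hle hQ'
    omega
  refine ⟨P.image fun t => T t y₀, ?_, ?_⟩
  · intro x hx
    obtain ⟨t, -, rfl⟩ := Finset.mem_image.1 hx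
    exact hK.inv t y₀ hy₀
  · have hcl : IsClosed (⋃ t ∈ P, {x | d x (T t y₀) ≤ 2 * ε}) :=
      isClosed_biUnion_finset fun t _ => hdcl _ _
    have hsub : K ⊆ ⋃ t ∈ P, {x | d x (T t y₀) ≤ 2 * ε} := by
      rw [← orbit_closure hT hmul hK hy₀]
      apply closure_minimal _ hcl
      rintro _ ⟨s, rfl⟩
      obtain ⟨t, ht, hst⟩ := hmax s
      exact mem_biUnion (x := t) ht hst
    intro y hy
    have := hsub hy
    simp only [mem_iUnion, exists_prop] at this
    obtain ⟨t, ht, hyt⟩ := this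
    exact ⟨T t y₀, Finset.mem_image_of_mem _ ht, hyt⟩

end

/-- existence of minimal sets with a property stable under intersections of chains -/
theorem exists_minimal_closed (P : Set X → Prop) (hP : ∀ c : Set (Set X), c.Nonempty →
    (∀ s ∈ c, P s) → P (⋂₀ c)) (A : Set X) (hA : IsClosed A) (hAne : A.Nonempty) (hPA : P A) :
    ∃ M ⊆ A, IsClosed M ∧ M.Nonempty ∧ P M ∧
      ∀ M' : Set X, IsClosed M' → M'.Nonempty → P M' → M' ⊆ M → M' = M := by
  obtain ⟨M, hMA, hM⟩ := zorn_superset_nonempty {s : Set X | IsClosed s ∧ s.Nonempty ∧ P s} (by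
    intro c hc hchain hcne
    refine ⟨⋂₀ c, ⟨isClosed_sInter fun s hs => (hc hs).1, ?_, hP c hcne fun s hs => (hc hs).2.2⟩,
      fun s hs => sInter_subset_of_mem hs⟩
    have : Nonempty c := hcne.to_subtype
    rw [sInter_eq_iInter]
    apply IsCompact.nonempty_iInter_of_directed_nonempty_isCompact_isClosed
    · intro s t
      rcases hchain.total s.2 t.2 with h | h
      · exact ⟨s, Subset.rfl, h⟩
      · exact ⟨t, h, Subset.rfl⟩
    · exact fun s => (hc s.2).2.1
    · exact fun s => (hc s.2).1.isCompact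
    · exact fun s => (hc s.2).1) A ⟨hA, hAne, hPA⟩
  refine ⟨M, hMA, hM.prop.1, hM.prop.2.1, hM.prop.2.2, ?_⟩
  intro M' h1 h2 h3 h4
  exact subset_antisymm h4 (hM.le_of_le ⟨h1, h2, h3⟩ h4)

end Pool.Agent.Y972.WAP
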