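import Mathlib

/-!
# Weakly almost periodic functions on a semitopological semigroup and left invariant means
-/

set_option autoImplicit false

open Filter Topology Set
open scoped BoundedContinuousFunction Pointwise

namespace Pool.Agent.Y972.WAP

variable {𝕂 S : Type*} [RCLike 𝕂] [Semigroup S] [TopologicalSpace S] [SeparatelyContinuousMul S]

/-- the left translate `t ↦ f (a t)` of a bounded continuous function -/
def ltrans (a : S) (f : S →ᵇ 𝕂) : S →ᵇ 𝕂 :=
  f.compContinuous ⟨fun t => a * t, SeparatelyContinuousMul.continuous_const_mul⟩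

@[simp] theorem ltrans_apply (a : S) (f : S →ᵇ 𝕂) (t : S) : ltrans a f t = f (a * t) := rfl

/-- the set of all left translates of `f`, in the weak topology of `C_b(S)` -/
def weakOrbit (f : S →ᵇ 𝕂) : Set (WeakSpace 𝕂 (S →ᵇ 𝕂)) :=
  range fun a : S => toWeakSpace 𝕂 (S →ᵇ 𝕂) (ltrans a f)

variable (𝕂 S) in
/-- `WAP(S)`: the bounded continuous functions whose set of left translates is relatively
compact in the weak topology of `C_b(S)` -/
def WAPspace : Submodule 𝕂 (S →ᵇ 𝕂) where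
  carrier := {f | IsCompact (closure (weakOrbit f))}
  zero_mem' := by
    refine (isCompact_singleton (x := (0 : WeakSpace 𝕂 (S →ᵇ 𝕂)))).of_isClosed_subset
      isClosed_closure (closure_minimal ?_ isClosed_singleton)
    rintro _ ⟨a, rfl⟩
    rfl
  add_mem' := by
    intro f g hf hg
    have hc : IsCompact (closure (weakOrbit f) + closure (weakOrbit g)) := hf.add hg
    refine hc.of_isClosed_subset isClosed_closure (closure_minimal ?_ hc.isClosed)
    rintro _ ⟨a, rfl⟩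
    exact ⟨_, subset_closure ⟨a, rfl⟩, _, subset_closure ⟨a, rfl⟩, rfl⟩
  smul_mem' := by
    intro c f hf
    have hc : IsCompact (c • closure (weakOrbit f)) := hf.smul c
    refine hc.of_isClosed_subset isClosed_closure (closure_minimal ?_ hc.isClosed)
    rintro _ ⟨a, rfl⟩
    exact ⟨_, subset_closure ⟨a, rfl⟩, rfl⟩

theorem mem_WAPspace (f : S →ᵇ 𝕂) : f ∈ WAPspace 𝕂 S ↔ IsCompact (closure (weakOrbit f)) := Iff.rfl

theorem one_mem_WAPspace : (1 : S →ᵇ 𝕂) ∈ WAPspace 𝕂 S := by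
  rw [mem_WAPspace]
  refine (isCompact_singleton (x := toWeakSpace 𝕂 (S →ᵇ 𝕂) 1)).of_isClosed_subset
    isClosed_closure (closure_minimal ?_ isClosed_singleton)
  rintro _ ⟨a, rfl⟩
  rfl

theorem ltrans_mem_WAPspace (a : S) {f : S →ᵇ 𝕂} (hf : f ∈ WAPspace 𝕂 S) :
    ltrans a f ∈ WAPspace 𝕂 S := by
  rw [mem_WAPspace] at hf ⊢
  refine hf.of_isClosed_subset isClosed_closure (closure_mono ?_)
  rintro _ ⟨b, rfl⟩
  refine ⟨a * b, congrArg (toWeakSpace 𝕂 (S →ᵇ 𝕂)) ?_⟩
  ext t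
  simp [mul_assoc]

/-- a left invariant mean on `WAP(S)`: a positive linear functional `m` with `m(1) = 1` and
`m(ℓ_a f) = m(f)` -/
structure IsLIM (m : WAPspace 𝕂 S →ₗ[𝕂] 𝕂) : Prop where
  pos : ∀ f : WAPspace 𝕂 S, (∀ t, ∃ r : ℝ, 0 ≤ r ∧ f.1 t = (r : 𝕂)) → ∃ r : ℝ, 0 ≤ r ∧ m f = (r : 𝕂)
  one : m ⟨1, one_mem_WAPspace⟩ = 1
  inv : ∀ (a : S) (f : WAPspace 𝕂 S), m ⟨ltrans a f.1, ltrans_mem_WAPspace a f.2⟩ = m f

end Pool.Agent.Y972.WAP
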