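import Mathlib
import Pool.Agent.H731R2.Riesz

/-!
# Bounded functionals on `C(X)` and bounded pointwise convergence
-/

set_option autoImplicit false

open MeasureTheory Filter Topology Set

namespace Pool.Agent.Y972.WAP

variable {X : Type*} [TopologicalSpace X] [CompactSpace X] [T2Space X]

/-- A real bounded functional on `C(X, ℝ)` is dominated by a finite measure. -/
theorem exists_dominating_real [MeasurableSpace X] [BorelSpace X] (Φ : C(X, ℝ) →L[ℝ] ℝ) :
    ∃ μ : Measure X, IsFiniteMeasure μ ∧ ∀ h : C(X, ℝ), |Φ h| ≤ ∫ x, ‖h x‖ ∂μ := by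
  let R : C(X, ℂ) →L[ℝ] C(X, ℝ) := Complex.reCLM.compLeftContinuous ℝ X
  let Ψ : StrongDual ℂ C(X, ℂ) := StrongDual.extendRCLike (Φ.comp R : StrongDual ℝ C(X, ℂ))
  obtain ⟨μ, hfin, -, hμ⟩ := Pool.Agent.H731R2.exists_dominating_measure Ψ
  refine ⟨μ, hfin, fun h => ?_⟩
  let hc : C(X, ℂ) := ⟨fun x => (h x : ℂ), by fun_prop⟩
  have h1 := hμ hc
  have h2 : R hc = h := by
    ext x
    simp [R, hc]
  have h3 : (Ψ hc).re = Φ h := by
    have := StrongDual.re_extendRCLike_apply (𝕜 := ℂ) (Φ.comp R) hc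
    rw [← h2]
    exact this
  have h4 : |Φ h| ≤ ‖Ψ hc‖ := by
    rw [← h3]
    exact Complex.abs_re_le_norm _
  refine h4.trans (h1.trans (le_of_eq ?_))
  apply integral_congr_ae
  filter_upwards with x
  simp [hc]

/-- Bounded pointwise convergence of a sequence implies weak convergence in `C(X, ℝ)`. -/
theorem functional_tendsto (Φ : C(X, ℝ) →L[ℝ] ℝ) (g : ℕ → C(X, ℝ)) (h : C(X, ℝ)) (B : ℝ)
    (hB : ∀ n x, |g n x| ≤ B) (hlim : ∀ x, Tendsto (fun n => g n x) atTop (𝓝 (h x))) :
    Tendsto (fun n => Φ (g n)) atTop (𝓝 (Φ h)) := by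
  borelize X
  obtain ⟨μ, hfin, hμ⟩ := exists_dominating_real Φ
  have hBh : ∀ x, |h x| ≤ B := fun x =>
    le_of_tendsto ((hlim x).abs) (Eventually.of_forall fun n => hB n x)
  have h1 : Tendsto (fun n => ∫ x, ‖(g n - h) x‖ ∂μ) atTop (𝓝 (∫ _x : X, (0 : ℝ) ∂μ)) := by
    apply tendsto_integral_of_dominated_convergence (fun _ => B + B)
    · intro n
      exact ((g n - h).continuous.norm).aestronglyMeasurable
    · exact integrable_const _
    · intro n
      filter_upwards with x
      rw [norm_norm, ContinuousMap.sub_apply, Real.norm_eq_abs]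
      exact (abs_sub _ _).trans (add_le_add (hB n x) (hBh x))
    · filter_upwards with x
      have := ((hlim x).sub_const (h x)).norm
      simpa using this
  rw [integral_zero] at h1
  rw [tendsto_iff_norm_sub_tendsto_zero]
  refine squeeze_zero (fun n => norm_nonneg _) (fun n => ?_) h1
  rw [← map_sub]
  exact hμ (g n - h)

end Pool.Agent.Y972.WAP
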