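import Mathlib

/-!
# Weakly compact sets are fragmented by continuous seminorms
-/

set_option autoImplicit false
set_option linter.unusedSectionVars false
set_option linter.deprecated false

open Filter Topology Set

namespace Pool.Agent.Y972.WAP

variable {𝕜 E : Type*} [RCLike 𝕜] [AddCommGroup E] [Module 𝕜 E] [Module ℝ E] [IsScalarTower ℝ 𝕜 E]
  [TopologicalSpace E] [IsTopologicalAddGroup E] [ContinuousSMul 𝕜 E] [LocallyConvexSpace ℝ E]
  [PolynormableSpace 𝕜 E]

omit [Module ℝ E] [IsScalarTower ℝ 𝕜 E] [IsTopologicalAddGroup E] [ContinuousSMul 𝕜 E]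
  [LocallyConvexSpace ℝ E] [PolynormableSpace 𝕜 E] in
variable (𝕜 E) in
/-- back from the weak space -/
noncomputable abbrev ee : WeakSpace 𝕜 E ≃ₗ[𝕜] E := (toWeakSpace 𝕜 E).symm

omit [Module ℝ E] [IsScalarTower ℝ 𝕜 E] [IsTopologicalAddGroup E] [ContinuousSMul 𝕜 E]
  [LocallyConvexSpace ℝ E] in
theorem hb (p : Seminorm 𝕜 E) (hp : Continuous p) (z : E) :
    ∃ g : StrongDual 𝕜 E, g z = ((p z : ℝ) : 𝕜) ∧ ∀ x, ‖g x‖ ≤ p x := by
  by_cases hz : z = 0
  · refine ⟨0, ?_, fun x => ?_⟩
    · subst hz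
      simp
    · simp
  · let c := LinearEquiv.toSpanNonzeroSingleton 𝕜 E z hz
    let f : Module.Dual 𝕜 (Submodule.span 𝕜 {z}) := ((p z : ℝ) : 𝕜) • (c.symm : _ →ₗ[𝕜] 𝕜)
    have hf : ∀ a : 𝕜, f (c a) = ((p z : ℝ) : 𝕜) * a := by
      intro a
      change ((p z : ℝ) : 𝕜) • (c.symm (c a)) = _
      rw [LinearEquiv.symm_apply_apply, smul_eq_mul]
    have hcz : ∀ a : 𝕜, ((c a : Submodule.span 𝕜 {z}) : E) = a • z := fun a => rfl
    obtain ⟨g, hg1, hg2⟩ := Module.Dual.exists_continuous_extension_of_le_seminorm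
      (Submodule.span 𝕜 {z}) f hp (by
        intro y
        obtain ⟨a, rfl⟩ := c.surjective y
        rw [hf, hcz, map_smul_eq_mul, norm_mul, RCLike.norm_ofReal, abs_of_nonneg (apply_nonneg p z),
          mul_comm])
    refine ⟨g, ?_, hg2⟩
    have h1 := hg1 (c 1)
    rw [hf, hcz, one_smul, mul_one] at h1
    exact h1

omit [Module ℝ E] [IsScalarTower ℝ 𝕜 E] [IsTopologicalAddGroup E] [ContinuousSMul 𝕜 E]
  [LocallyConvexSpace ℝ E] [PolynormableSpace 𝕜 E] in
theorem weak_eval (g : StrongDual 𝕜 E) : Continuous fun w : WeakSpace 𝕜 E => g (ee 𝕜 E w) :=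
  WeakBilin.eval_continuous (topDualPairing 𝕜 E).flip g

omit [Module ℝ E] [IsScalarTower ℝ 𝕜 E] [IsTopologicalAddGroup E] [ContinuousSMul 𝕜 E]
  [LocallyConvexSpace ℝ E] in
theorem isClosed_ball (p : Seminorm 𝕜 E) (hp : Continuous p) (x : E) (r : ℝ) :
    IsClosed {w : WeakSpace 𝕜 E | p (ee 𝕜 E w - x) ≤ r} := by
  have : {w : WeakSpace 𝕜 E | p (ee 𝕜 E w - x) ≤ r} =
      ⋂ g : {g : StrongDual 𝕜 E // ∀ y, ‖g y‖ ≤ p y}, {w | ‖g.1 (ee 𝕜 E w) - g.1 x‖ ≤ r} := by
    ext w
    simp only [mem_setOf_eq, mem_iInter, ← map_sub]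
    constructor
    · intro h g
      exact (g.2 _).trans h
    · intro h
      obtain ⟨g, hg1, hg2⟩ := hb p hp (ee 𝕜 E w - x)
      have := h ⟨g, hg2⟩
      rw [hg1, RCLike.norm_ofReal, abs_of_nonneg (apply_nonneg p _)] at this
      exact this
  rw [this]
  refine isClosed_iInter fun g => ?_
  exact isClosed_le ((weak_eval g.1).sub continuous_const).norm continuous_const

/-- the list of the first `n` values of a branch, in reverse order -/
def lst (b : ℕ → Bool) : ℕ → List Bool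
  | 0 => []
  | n + 1 => b n :: lst b n

theorem frag (p : Seminorm 𝕜 E) (hp : Continuous p) (K : Set (WeakSpace 𝕜 E)) (hK : IsCompact K)
    (hne : K.Nonempty) (ε : ℝ) (hε : 0 < ε) :
    ∃ y₀ ∈ K, ∃ O : Set (WeakSpace 𝕜 E), IsOpen O ∧ y₀ ∈ O ∧
      ∀ z ∈ K, z ∈ O → p (ee 𝕜 E z - ee 𝕜 E y₀) ≤ ε := by
  by_contra hcon
  push Not at hcon
  let St := {s : WeakSpace 𝕜 E × Set (WeakSpace 𝕜 E) // s.1 ∈ K ∧ IsOpen s.2 ∧ s.1 ∈ s.2}
  have hstep : ∀ s : St, ∃ (s0 s1 : St) (g : StrongDual 𝕜 E), s0.1.2 ⊆ s.1.2 ∧ s1.1.2 ⊆ s.1.2 ∧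
      (∀ x, ‖g x‖ ≤ p x) ∧ ∀ w1 ∈ closure s1.1.2, ∀ w0 ∈ closure s0.1.2,
        ε ≤ RCLike.re (g (ee 𝕜 E w1)) - RCLike.re (g (ee 𝕜 E w0)) := by
    rintro ⟨⟨y, O⟩, hyK, hO, hyO⟩
    obtain ⟨z, hzK, hzO, hz⟩ := hcon y hyK O hO hyO
    obtain ⟨g, hg1, hg2⟩ := hb p hp (ee 𝕜 E z - ee 𝕜 E y)
    have hcont : Continuous fun w : WeakSpace 𝕜 E => RCLike.re (g (ee 𝕜 E w)) :=
      RCLike.continuous_re.comp (weak_eval g)
    have hre : RCLike.re (g (ee 𝕜 E z)) - RCLike.re (g (ee 𝕜 E y)) = p (ee 𝕜 E z - ee 𝕜 E y) := by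
      rw [← map_sub, ← map_sub, hg1, RCLike.ofReal_re]
    set η : ℝ := (p (ee 𝕜 E z - ee 𝕜 E y) - ε) / 2 with hη
    have hηpos : 0 < η := by
      simp only [hη]
      linarith
    refine ⟨⟨(y, O ∩ {w | RCLike.re (g (ee 𝕜 E w)) < RCLike.re (g (ee 𝕜 E y)) + η}), hyK,
      hO.inter (isOpen_lt hcont continuous_const), hyO, ?_⟩,
      ⟨(z, O ∩ {w | RCLike.re (g (ee 𝕜 E z)) - η < RCLike.re (g (ee 𝕜 E w))}), hzK,
      hO.inter (isOpen_lt continuous_const hcont), hzO, ?_⟩, g, inter_subset_left,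
      inter_subset_left, hg2, ?_⟩
    · change RCLike.re (g (ee 𝕜 E y)) < RCLike.re (g (ee 𝕜 E y)) + η
      linarith
    · change RCLike.re (g (ee 𝕜 E z)) - η < RCLike.re (g (ee 𝕜 E z))
      linarith
    · intro w1 hw1 w0 hw0
      have h1 : RCLike.re (g (ee 𝕜 E z)) - η ≤ RCLike.re (g (ee 𝕜 E w1)) := by
        have hcl : IsClosed {w : WeakSpace 𝕜 E | RCLike.re (g (ee 𝕜 E z)) - η ≤ RCLike.re (g (ee 𝕜 E w))} :=
          isClosed_le continuous_const hcont
        refine (closure_minimal ?_ hcl) hw1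
        rintro w ⟨-, hw⟩
        exact (show RCLike.re (g (ee 𝕜 E z)) - η < RCLike.re (g (ee 𝕜 E w)) from hw).le
      have h0 : RCLike.re (g (ee 𝕜 E w0)) ≤ RCLike.re (g (ee 𝕜 E y)) + η := by
        have hcl : IsClosed {w : WeakSpace 𝕜 E | RCLike.re (g (ee 𝕜 E w)) ≤ RCLike.re (g (ee 𝕜 E y)) + η} :=
          isClosed_le hcont continuous_const
        refine (closure_minimal ?_ hcl) hw0
        rintro w ⟨-, hw⟩
        exact (show RCLike.re (g (ee 𝕜 E w)) < RCLike.re (g (ee 𝕜 E y)) + η from hw).le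
      linarith
  choose c0 c1 gg h0sub h1sub hgp hsep using hstep
  obtain ⟨y₀, hy₀⟩ := hne
  let root : St := ⟨(y₀, univ), hy₀, isOpen_univ, mem_univ _⟩
  let node : List Bool → St := fun l => List.rec root (fun b _ s => if b then c1 s else c0 s) l
  have hnode : ∀ b l, node (b :: l) = if b then c1 (node l) else c0 (node l) := fun b l => rfl
  have hsub : ∀ b l, (node (b :: l)).1.2 ⊆ (node l).1.2 := by
    intro b l
    rw [hnode]
    cases b
    · exact h0sub _
    · exact h1sub _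
  -- limits along branches
  have hbr : ∀ b : ℕ → Bool, ∃ w ∈ K, (∀ n, w ∈ closure (node (lst b n)).1.2) ∧
      w ∈ closure (range fun l => (node l).1.1) := by
    intro b
    let y : ℕ → WeakSpace 𝕜 E := fun n => (node (lst b n)).1.1
    let V : Ultrafilter ℕ := hyperfilter ℕ
    obtain ⟨w, hwK, hw⟩ := hK.ultrafilter_le_nhds (V.map y) (by
      rw [Ultrafilter.coe_map, le_principal_iff, mem_map]
      exact Filter.univ_mem' fun n => (node (lst b n)).2.1)
    have hwt : Tendsto y V (𝓝 w) := hw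
    refine ⟨w, hwK, fun m => ?_, ?_⟩
    · refine mem_closure_of_tendsto hwt ?_
      have hge : ∀ᶠ n in (V : Filter ℕ), m ≤ n := by
        have : (V : Filter ℕ) ≤ atTop := by
          rw [← Nat.cofinite_eq_atTop]
          exact hyperfilter_le_cofinite
        exact this (eventually_ge_atTop m)
      filter_upwards [hge] with n hn
      have hmono : ∀ k, (node (lst b (m + k))).1.2 ⊆ (node (lst b m)).1.2 := by
        intro k
        induction k with
        | zero => exact Subset.rfl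
        | succ k ih => exact (hsub (b (m + k)) (lst b (m + k))).trans ih
      obtain ⟨k, rfl⟩ := Nat.exists_eq_add_of_le hn
      exact hmono k (node (lst b (m + k))).2.2.2
    · refine mem_closure_of_tendsto hwt (Eventually.of_forall fun n => ⟨lst b n, rfl⟩)
  choose w hwK hwcl hwD using hbr
  have hfar : ∀ b b' : ℕ → Bool, b ≠ b' → ε ≤ p (ee 𝕜 E (w b) - ee 𝕜 E (w b')) := by
    intro b b' hbb
    obtain ⟨n, hn⟩ := Function.ne_iff.1 hbb
    classical
    obtain ⟨m, hm, hmin⟩ : ∃ m, b m ≠ b' m ∧ ∀ k < m, b k = b' k := by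
      have hex : ∃ n, b n ≠ b' n := ⟨n, hn⟩
      refine ⟨Nat.find hex, Nat.find_spec hex, fun k hk => ?_⟩
      have := Nat.find_min hex hk
      push Not at this
      exact this
    have hl : ∀ k ≤ m, lst b k = lst b' k := by
      intro k
      induction k with
      | zero => intro _; rfl
      | succ k ih =>
        intro hk
        change b k :: lst b k = b' k :: lst b' k
        rw [ih (by omega), hmin k (by omega)]
    have key : ∀ a a' : ℕ → Bool, lst a m = lst a' m → a m = true → a' m = false →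
        ε ≤ p (ee 𝕜 E (w a) - ee 𝕜 E (w a')) := by
      intro a a' haa ha ha'
      have h1 := hwcl a (m + 1)
      have h2 := hwcl a' (m + 1)
      have e1 : node (lst a (m + 1)) = c1 (node (lst a m)) := by
        change node (a m :: lst a m) = _
        rw [hnode, ha]
        rfl
      have e2 : node (lst a' (m + 1)) = c0 (node (lst a m)) := by
        change node (a' m :: lst a' m) = _
        rw [hnode, ha', ← haa]
        rfl
      rw [e1] at h1
      rw [e2] at h2
      have h3 := hsep (node (lst a m)) _ h1 _ h2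
      rw [← map_sub, ← map_sub] at h3
      exact h3.trans ((RCLike.re_le_norm _).trans (hgp _ _))
    cases hbm : b m
    · have hb'm : b' m = true := by
        cases h : b' m
        · exact absurd (hbm.trans h.symm) hm
        · rfl
      have := key b' b (hl m le_rfl).symm hb'm hbm
      rwa [← neg_sub, map_neg_eq_map] at this
    · have hb'm : b' m = false := by
        cases h : b' m
        · rfl
        · exact absurd (hbm.trans h.symm) hm
      exact key b b' (hl m le_rfl) hbm hb'm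
  -- separability
  let D : Set E := range fun l => ee 𝕜 E (node l).1.1
  have hDc : D.Countable := countable_range _
  have hsepD : TopologicalSpace.IsSeparable (closure (Submodule.span 𝕜 D : Set E)) :=
    (hDc.isSeparable.span (R := 𝕜)).closure
  obtain ⟨c, hcc, hc⟩ := hsepD
  have hwc : ∀ b, ee 𝕜 E (w b) ∈ closure c := by
    intro b
    apply hc
    have hconv : Convex ℝ (Submodule.span 𝕜 D : Set E) := by
      have := (Submodule.span 𝕜 D).restrictScalars ℝ
      exact ((Submodule.span 𝕜 D).restrictScalars ℝ).convex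
    have h1 := hconv.toWeakSpace_closure 𝕜
    have h2 : w b ∈ closure (toWeakSpace 𝕜 E '' (Submodule.span 𝕜 D : Set E)) := by
      refine closure_mono ?_ (hwD b)
      rintro _ ⟨l, rfl⟩
      exact ⟨ee 𝕜 E (node l).1.1, Submodule.subset_span ⟨l, rfl⟩, by simp⟩
    rw [← h1] at h2
    obtain ⟨x, hx, hxw⟩ := h2
    rw [← hxw]
    simpa using hx
  have hch : ∀ b, ∃ d ∈ c, p (ee 𝕜 E (w b) - d) < ε / 2 := by
    intro b
    have hopen : IsOpen {x : E | p (ee 𝕜 E (w b) - x) < ε / 2} :=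
      isOpen_lt (hp.comp (continuous_const.sub continuous_id)) continuous_const
    have hmem : ee 𝕜 E (w b) ∈ {x : E | p (ee 𝕜 E (w b) - x) < ε / 2} := by
      simp only [mem_setOf_eq, sub_self, map_zero]
      positivity
    obtain ⟨d, hd1, hd2⟩ := mem_closure_iff.1 (hwc b) _ hopen hmem
    exact ⟨d, hd2, hd1⟩
  choose d hdc hd using hch
  have hinj : Function.Injective fun b : ℕ → Bool => (⟨d b, hdc b⟩ : c) := by
    intro b b' hbb
    by_contra hne'
    have h1 : d b = d b' := congrArg Subtype.val hbb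
    have h2 := hfar b b' hne'
    have h3 : p (ee 𝕜 E (w b) - ee 𝕜 E (w b')) ≤ p (ee 𝕜 E (w b) - d b) + p (ee 𝕜 E (w b') - d b') := by
      have : ee 𝕜 E (w b) - ee 𝕜 E (w b') = (ee 𝕜 E (w b) - d b) - (ee 𝕜 E (w b') - d b') := by
        rw [h1]
        abel
      rw [this]
      exact map_sub_le_add p _ _
    linarith [hd b, hd b']
  have : Countable c := hcc.to_subtype
  have hcount : Countable (ℕ → Bool) := hinj.countable
  obtain ⟨f, hf⟩ := hcount
  classical
  refine Function.cantor_injective (fun s : Set ℕ => f fun n => decide (n ∈ s)) ?_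
  intro s t hst
  have h1 := hf hst
  ext n
  have h2 := congrFun h1 n
  simpa using h2

end Pool.Agent.Y972.WAP
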