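import Pool.Agent.Y972.WAP.Dom

/-!
# Grothendieck's theorem on pointwise compact sets of continuous functions
-/

set_option autoImplicit false

open Filter Topology Set

namespace Pool.Agent.Y972.WAP

variable {X : Type*} [TopologicalSpace X] [CompactSpace X] [T2Space X]

/-- finite nets for a finite family of continuous functions -/
theorem exists_net {ι : Type*} (H : ι → C(X, ℝ)) (L : Finset ι) (ε : ℝ) (hε : 0 < ε) :
    ∃ A : Finset X, ∀ x, ∃ y ∈ A, ∀ i ∈ L, |H i x - H i y| < ε := by
  have hopen : ∀ y : X, IsOpen {x | ∀ i ∈ L, |H i x - H i y| < ε} := by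
    intro y
    have : {x | ∀ i ∈ L, |H i x - H i y| < ε} = ⋂ i ∈ L, {x | |H i x - H i y| < ε} := by
      ext x
      simp
    rw [this]
    refine isOpen_biInter_finset fun i _ => ?_
    exact isOpen_lt (by fun_prop) continuous_const
  obtain ⟨A, hA⟩ := isCompact_univ.elim_finite_subcover
    (fun y : X => {x | ∀ i ∈ L, |H i x - H i y| < ε}) hopen (by
      intro x _
      refine mem_iUnion.2 ⟨x, ?_⟩
      intro i _
      simpa using hε)
  refine ⟨A, fun x => ?_⟩
  have := hA (mem_univ x)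
  simp only [mem_iUnion, mem_setOf_eq, exists_prop] at this
  exact this

theorem continuous_functional (K : Set (X → X)) (hK : IsCompact K)
    (hc : ∀ σ ∈ K, Continuous σ) (h : C(X, ℝ)) (Φ : C(X, ℝ) →L[ℝ] ℝ) :
    Continuous (fun σ : K => Φ (h.comp ⟨σ.1, hc σ.1 σ.2⟩)) := by
  classical
  set H : K → C(X, ℝ) := fun σ => h.comp ⟨σ.1, hc σ.1 σ.2⟩ with hH
  have hHapp : ∀ (σ : K) (x : X), H σ x = h (σ.1 x) := fun σ x => rfl
  rw [continuous_iff_ultrafilter]
  intro σ₀ U hU
  -- the limit along the ultrafilter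
  have hbd : ∀ σ : K, Φ (H σ) ∈ Metric.closedBall (0 : ℝ) (‖Φ‖ * ‖h‖) := by
    intro σ
    rw [mem_closedBall_zero_iff]
    refine (Φ.le_opNorm _).trans (mul_le_mul_of_nonneg_left ?_ (norm_nonneg _))
    rw [ContinuousMap.norm_le _ (norm_nonneg _)]
    intro x
    exact h.norm_coe_le_norm _
  obtain ⟨c, -, hcl⟩ := (isCompact_closedBall (0 : ℝ) (‖Φ‖ * ‖h‖)).ultrafilter_le_nhds
    (U.map fun σ => Φ (H σ)) (by
      rw [Ultrafilter.coe_map, le_principal_iff, mem_map]
      exact Filter.univ_mem' hbd)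
  have hcU : Tendsto (fun σ => Φ (H σ)) U (𝓝 c) := hcl
  -- evaluation is continuous
  have heval : ∀ y : X, Continuous fun σ : K => H σ y := by
    intro y
    exact h.continuous.comp ((continuous_apply y).comp continuous_subtype_val)
  -- the choice of the next element
  have hpick : ∀ (n : ℕ) (A : Finset X), ∃ σ : K,
      (∀ y ∈ A, |H σ y - H σ₀ y| < 1 / ((n : ℝ) + 1)) ∧ |Φ (H σ) - c| < 1 / ((n : ℝ) + 1) := by
    intro n A
    have hn : (0 : ℝ) < 1 / ((n : ℝ) + 1) := by positivity
    have h1 : ∀ᶠ σ in (U : Filter K), ∀ y ∈ A, |H σ y - H σ₀ y| < 1 / ((n : ℝ) + 1) := by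
      rw [Filter.eventually_all_finset]
      intro y _
      have h2 : Tendsto (fun σ => H σ y) U (𝓝 (H σ₀ y)) := ((heval y).tendsto σ₀).mono_left hU
      have h3 := (Metric.tendsto_nhds.1 h2) _ hn
      filter_upwards [h3] with σ hσ
      rwa [Real.dist_eq] at hσ
    have h4 : ∀ᶠ σ in (U : Filter K), |Φ (H σ) - c| < 1 / ((n : ℝ) + 1) := by
      have h3 := (Metric.tendsto_nhds.1 hcU) _ hn
      filter_upwards [h3] with σ hσ
      rwa [Real.dist_eq] at hσ
    exact (h1.and h4).exists
  choose pick hpick1 hpick2 using hpick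
  have hnet : ∀ (n : ℕ) (L : Finset K), ∃ A : Finset X, ∀ x, ∃ y ∈ A, ∀ σ ∈ L,
      |H σ x - H σ y| < 1 / ((n : ℝ) + 1) := fun n L => exists_net H L _ (by positivity)
  choose net hnet using hnet
  -- the recursion
  let st : ℕ → Finset K × Finset X := fun n => Nat.rec ({σ₀}, ∅)
    (fun n s => (insert (pick n (s.2 ∪ net n s.1)) s.1, s.2 ∪ net n s.1)) n
  have hst : ∀ n, st (n + 1) =
      (insert (pick n ((st n).2 ∪ net n (st n).1)) (st n).1, (st n).2 ∪ net n (st n).1) :=
    fun n => rfl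
  let seq : ℕ → K := fun n => pick n (st (n + 1)).2
  have hmono1 : Monotone fun n => (st n).1 := by
    refine monotone_nat_of_le_succ fun n => ?_
    rw [hst]
    exact Finset.subset_insert _ _
  have hmono2 : Monotone fun n => (st n).2 := by
    refine monotone_nat_of_le_succ fun n => ?_
    rw [hst]
    exact Finset.subset_union_left
  have hseq : ∀ n, seq n ∈ (st (n + 1)).1 := by
    intro n
    change pick n (st (n + 1)).2 ∈ _
    rw [hst]
    exact Finset.mem_insert_self _ _
  have hσ₀ : ∀ n, σ₀ ∈ (st n).1 := fun n => hmono1 (Nat.zero_le n) (Finset.mem_singleton_self _)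
  have hP3 : ∀ m, ∀ y ∈ (st (m + 1)).2, ∀ n, m ≤ n → |H (seq n) y - H σ₀ y| < 1 / ((n : ℝ) + 1) := by
    intro m y hy n hmn
    exact hpick1 n _ y (hmono2 (Nat.succ_le_succ hmn) hy)
  have hP5 : ∀ n x, ∃ y ∈ (st (n + 1)).2, ∀ σ ∈ (st n).1, |H σ x - H σ y| < 1 / ((n : ℝ) + 1) := by
    intro n x
    obtain ⟨y, hy, hy'⟩ := hnet n (st n).1 x
    refine ⟨y, ?_, hy'⟩
    rw [hst]
    exact Finset.mem_union_right _ hy
  have hzero : Tendsto (fun n : ℕ => 1 / ((n : ℝ) + 1)) atTop (𝓝 0) :=
    tendsto_one_div_add_atTop_nhds_zero_nat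
  -- pointwise convergence
  have hpt : ∀ x, Tendsto (fun n => H (seq n) x) atTop (𝓝 (H σ₀ x)) := by
    intro x
    rw [tendsto_iff_ultrafilter]
    intro V hV
    have : CompactSpace K := isCompact_iff_compactSpace.1 hK
    obtain ⟨τ, -, hτ⟩ := isCompact_univ.ultrafilter_le_nhds (V.map seq) (by simp)
    have hτ' : ∀ y, Tendsto (fun n => H (seq n) y) V (𝓝 (H τ y)) := fun y =>
      ((heval y).tendsto τ).comp (show Tendsto seq V (𝓝 τ) from hτ)
    have hD : ∀ m, ∀ y ∈ (st (m + 1)).2, H τ y = H σ₀ y := by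
      intro m y hy
      have h1 : Tendsto (fun n => H (seq n) y) atTop (𝓝 (H σ₀ y)) := by
        rw [tendsto_iff_norm_sub_tendsto_zero]
        refine squeeze_zero' (Eventually.of_forall fun n => norm_nonneg _) ?_ hzero
        filter_upwards [eventually_ge_atTop m] with n hn
        exact (hP3 m y hy n hn).le
      exact tendsto_nhds_unique (hτ' y) (h1.mono_left hV)
    choose y hy1 hy2 using fun n => hP5 n x
    obtain ⟨x', -, hx'⟩ := isCompact_univ.ultrafilter_le_nhds (V.map y) (by simp)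
    have hyV : Tendsto y V (𝓝 x') := hx'
    have hsame : ∀ m, ∀ σ ∈ (st m).1, H σ x' = H σ x := by
      intro m σ hσ
      have h1 : Tendsto (fun n => H σ (y n)) V (𝓝 (H σ x')) := ((H σ).continuous.tendsto x').comp hyV
      have h2 : Tendsto (fun n => H σ (y n)) V (𝓝 (H σ x)) := by
        refine Tendsto.mono_left ?_ hV
        rw [tendsto_iff_norm_sub_tendsto_zero]
        refine squeeze_zero' (Eventually.of_forall fun n => norm_nonneg _) ?_ hzero
        filter_upwards [eventually_ge_atTop m] with n hn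
        have := (hy2 n σ (hmono1 hn hσ)).le
        rwa [abs_sub_comm] at this
      exact tendsto_nhds_unique h1 h2
    have h3 : H τ x' = H τ x := by
      have h4 := hτ' x'
      have h5 : (fun n => H (seq n) x') = fun n => H (seq n) x := by
        funext n
        exact hsame (n + 1) (seq n) (hseq n)
      rw [h5] at h4
      exact tendsto_nhds_unique h4 (hτ' x)
    have h6 : H τ x' = H σ₀ x' := by
      have h7 : Tendsto (fun n => H τ (y n)) V (𝓝 (H τ x')) := ((H τ).continuous.tendsto x').comp hyV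
      have h8 : Tendsto (fun n => H σ₀ (y n)) V (𝓝 (H σ₀ x')) :=
        ((H σ₀).continuous.tendsto x').comp hyV
      have h9 : (fun n => H τ (y n)) = fun n => H σ₀ (y n) := by
        funext n
        exact hD n (y n) (hy1 n)
      rw [h9] at h7
      exact tendsto_nhds_unique h7 h8
    have h10 : H τ x = H σ₀ x := by
      rw [← h3, h6]
      exact hsame 0 σ₀ (hσ₀ 0)
    rw [← h10]
    exact hτ' x
  have hΦ := functional_tendsto Φ (fun n => H (seq n)) (H σ₀) ‖h‖ (fun n x => h.norm_coe_le_norm _) hpt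
  have hΦ' : Tendsto (fun n => Φ (H (seq n))) atTop (𝓝 c) := by
    rw [tendsto_iff_norm_sub_tendsto_zero]
    exact squeeze_zero (fun n => norm_nonneg _) (fun n => (hpick2 n _).le) hzero
  have hcc : c = Φ (H σ₀) := tendsto_nhds_unique hΦ' hΦ
  rw [← hcc]
  exact hcU

end Pool.Agent.Y972.WAP
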