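import Pool.Agent.Y972.WAP.Mean
import Pool.Agent.Y972.WAP.Frag

/-!
# Common fixed points of nonexpansive actions on weakly compact convex sets
-/

set_option autoImplicit false
set_option linter.unusedSectionVars false
set_option linter.deprecated false

open Filter Topology Set
open scoped BoundedContinuousFunction

namespace Pool.Agent.Y972.WAP

section Core2

variable {X S E : Type*} [TopologicalSpace X] [CompactSpace X] [T2Space X] [Mul S] [Nonempty S]
  [AddCommGroup E] [Module ℝ E]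
variable {T : S → X → X}

/-- the key step: the minimal set has no two points at positive distance -/
theorem diam_zero (hT : ∀ s, Continuous (T s)) (hmul : ∀ s t x, T (s * t) x = T s (T t x))
    (φ : X → E) {M K : Set X}
    (hMcl : IsClosed M) (hMinv : Invt T M) (hMconv : Convex ℝ (φ '' M))
    (hMmin : ∀ M' : Set X, IsClosed M' → M'.Nonempty → (Invt T M' ∧ Convex ℝ (φ '' M')) →
      M' ⊆ M → M' = M)
    (hKM : K ⊆ M) (hK : IsMin T K) {x₀ : X} (hx₀ : x₀ ∈ K) {Λ : C(X, ℝ) →ₗ[ℝ] ℝ}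
    (hΛ : IsMean T hT x₀ Λ) (p : Seminorm ℝ E)
    (hcl : ∀ y r, IsClosed {x | p (φ x - φ y) ≤ r})
    (hnonexp : ∀ s x y, p (φ (T s x) - φ (T s y)) ≤ p (φ x - φ y))
    (hfrag : ∀ ε : ℝ, 0 < ε → ∃ y₀ ∈ K, ∃ O : Set X, IsOpen O ∧ y₀ ∈ O ∧
      ∀ z ∈ K, z ∈ O → p (φ z - φ y₀) ≤ ε) (x y : X) (hx : x ∈ K) (hy : y ∈ K) :
    p (φ x - φ y) = 0 := by
  classical
  set d : X → X → ℝ := fun x y => p (φ x - φ y) with hd
  have hd0 : ∀ x, d x x = 0 := fun x => by simp [hd]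
  have hdnn : ∀ x y, 0 ≤ d x y := fun x y => apply_nonneg p _
  have hdsymm : ∀ x y, d x y = d y x := fun x y => map_sub_rev p _ _
  have hdtri : ∀ x y z, d x z ≤ d x y + d y z := by
    intro x y z
    have : φ x - φ z = (φ x - φ y) + (φ y - φ z) := by abel
    simp only [hd]
    rw [this]
    exact map_add_le_add p _ _
  have htb : ∀ ε : ℝ, 0 < ε → ∃ F : Finset X, (∀ x ∈ F, x ∈ K) ∧ ∀ y ∈ K, ∃ x ∈ F, d y x ≤ 2 * ε :=
    fun ε hε => totally_bounded hmul hK hx₀ hΛ d hd0 hdsymm hdtri hcl hnonexp ε hε (hfrag ε hε)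
  -- the diameter
  let D : Set ℝ := {r | ∃ x ∈ K, ∃ y ∈ K, d x y = r}
  have hDb : BddAbove D := by
    obtain ⟨F, hFK, hF⟩ := htb 1 one_pos
    refine ⟨4 + ∑ a ∈ F, ∑ b ∈ F, d a b, ?_⟩
    rintro r ⟨x, hx, y, hy, rfl⟩
    obtain ⟨a, ha, hxa⟩ := hF x hx
    obtain ⟨b, hb, hyb⟩ := hF y hy
    have h1 : d a b ≤ ∑ a ∈ F, ∑ b ∈ F, d a b := by
      have h2 : d a b ≤ ∑ b ∈ F, d a b :=
        Finset.single_le_sum (f := fun b => d a b) (fun _ _ => hdnn _ _) hb
      have h3 : ∑ b ∈ F, d a b ≤ ∑ a ∈ F, ∑ b ∈ F, d a b :=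
        Finset.single_le_sum (f := fun a => ∑ b ∈ F, d a b)
          (fun _ _ => Finset.sum_nonneg fun _ _ => hdnn _ _) ha
      exact h2.trans h3
    have h4 := hdtri x a y
    have h5 := hdtri a b y
    rw [hdsymm b y] at h5
    linarith
  have hDle : ∀ x ∈ K, ∀ y ∈ K, d x y ≤ sSup D := fun x hx y hy => le_csSup hDb ⟨x, hx, y, hy, rfl⟩
  have hDne : D.Nonempty := ⟨d x y, x, hx, y, hy, rfl⟩
  by_contra hne
  have hDpos : 0 < sSup D := lt_of_lt_of_le (lt_of_le_of_ne (hdnn x y) (Ne.symm hne)) (hDle x hx y hy)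
  obtain ⟨F, hFK, hF⟩ := htb (sSup D / 4) (by positivity)
  have hFne : F.Nonempty := by
    obtain ⟨a, ha, -⟩ := hF x hx
    exact ⟨a, ha⟩
  have hn : (0 : ℝ) < F.card := by
    exact_mod_cast hFne.card_pos
  -- the centre
  have hu : ∃ u ∈ M, φ u = ∑ a ∈ F, (1 / (F.card : ℝ)) • φ a := by
    have h1 : ∑ a ∈ F, (1 / (F.card : ℝ)) • φ a ∈ φ '' M := by
      apply hMconv.sum_mem
      · intro a _
        positivity
      · rw [Finset.sum_const, nsmul_eq_mul]
        field_simp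
      · intro a ha
        exact ⟨a, hKM (hFK a ha), rfl⟩
    obtain ⟨u, hu, hu'⟩ := h1
    exact ⟨u, hu, hu'⟩
  obtain ⟨u, huM, hu⟩ := hu
  set r : ℝ := sSup D - sSup D / (2 * F.card) with hr
  have hrlt : r < sSup D := by
    have : 0 < sSup D / (2 * F.card) := by positivity
    linarith
  have hur : ∀ y ∈ K, d u y ≤ r := by
    intro y hy
    have h1 : φ u - φ y = ∑ a ∈ F, (1 / (F.card : ℝ)) • (φ a - φ y) := by
      simp only [smul_sub, Finset.sum_sub_distrib]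
      rw [← hu, Finset.sum_const, ← Nat.cast_smul_eq_nsmul ℝ, smul_smul]
      have : (F.card : ℝ) * (1 / F.card) = 1 := by field_simp
      rw [this, one_smul]
    have h2 : d u y ≤ ∑ a ∈ F, (1 / (F.card : ℝ)) * d a y := by
      simp only [hd]
      rw [h1]
      refine (Finset.le_sum_of_subadditive p (map_zero p).le (map_add_le_add p) F _).trans
        (Finset.sum_le_sum fun a _ => ?_)
      rw [map_smul_eq_mul, Real.norm_of_nonneg (by positivity)]
    obtain ⟨b, hb, hyb⟩ := hF y hy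
    have h3 : ∑ a ∈ F, (1 / (F.card : ℝ)) * d a y ≤
        ∑ a ∈ F, ((1 / (F.card : ℝ)) * sSup D - if a = b then (1 / (F.card : ℝ)) * (sSup D / 2)
          else 0) := by
      apply Finset.sum_le_sum
      intro a ha
      by_cases hab : a = b
      · rw [if_pos hab, ← mul_sub, hab, hdsymm b y]
        apply mul_le_mul_of_nonneg_left _ (by positivity)
        linarith
      · rw [if_neg hab, sub_zero]
        exact mul_le_mul_of_nonneg_left (hDle a (hFK a ha) y hy) (by positivity)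
    have h4 : ∑ a ∈ F, ((1 / (F.card : ℝ)) * sSup D - if a = b then (1 / (F.card : ℝ)) * (sSup D / 2)
        else 0) = r := by
      rw [Finset.sum_sub_distrib, Finset.sum_const, nsmul_eq_mul, Finset.sum_ite_eq' F b, if_pos hb,
        hr]
      field_simp
    linarith
  -- the smaller invariant set
  let C₀ : Set X := {x | x ∈ M ∧ ∀ y ∈ K, d x y ≤ r}
  have hC₀ : C₀ = M := by
    apply hMmin
    · have : C₀ = M ∩ ⋂ y ∈ K, {x | d x y ≤ r} := by
        ext x
        simp [C₀]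
      rw [this]
      exact hMcl.inter (isClosed_biInter fun y _ => hcl y r)
    · exact ⟨u, huM, hur⟩
    · refine ⟨?_, ?_⟩
      · rintro s x ⟨hxM, hxr⟩
        refine ⟨hMinv s x hxM, fun y hy => ?_⟩
        rw [← image_eq hmul hK hx₀ hΛ s] at hy
        obtain ⟨y', hy', rfl⟩ := hy
        exact (hnonexp s x y').trans (hxr y' hy')
      · rintro _ ⟨x1, ⟨hx1, hx1r⟩, rfl⟩ _ ⟨x2, ⟨hx2, hx2r⟩, rfl⟩ a b ha hb hab
        obtain ⟨z, hz, hz'⟩ := hMconv ⟨x1, hx1, rfl⟩ ⟨x2, hx2, rfl⟩ ha hb hab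
        refine ⟨z, ⟨hz, fun y hy => ?_⟩, hz'⟩
        have h1 : φ z - φ y = a • (φ x1 - φ y) + b • (φ x2 - φ y) := by
          rw [hz', smul_sub, smul_sub]
          have : φ y = a • φ y + b • φ y := by
            rw [← add_smul, hab, one_smul]
          nth_rewrite 1 [this]
          abel
        simp only [hd]
        rw [h1]
        refine (map_add_le_add p _ _).trans ?_
        rw [map_smul_eq_mul, map_smul_eq_mul, Real.norm_of_nonneg ha, Real.norm_of_nonneg hb]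
        have h2 := mul_le_mul_of_nonneg_left (hx1r y hy) ha
        have h3 := mul_le_mul_of_nonneg_left (hx2r y hy) hb
        have h4 : a * r + b * r = r := by
          rw [← add_mul, hab, one_mul]
        linarith
    · rintro x ⟨hx, -⟩
      exact hx
  have hfin : sSup D ≤ r := by
    apply csSup_le hDne
    rintro _ ⟨x, hx, y, hy, rfl⟩
    have : x ∈ C₀ := by
      rw [hC₀]
      exact hKM hx
    exact this.2 y hy
  linarith

end Core2

variable {𝕜 𝕂 S E ι : Type*} [RCLike 𝕜] [RCLike 𝕂]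
  [Semigroup S] [TopologicalSpace S] [SeparatelyContinuousMul S]
  [AddCommGroup E] [Module 𝕜 E] [TopologicalSpace E] [T2Space E]

theorem main (hS : ∃ m : WAPspace 𝕂 S →ₗ[𝕂] 𝕂, IsLIM m)
    (Q : SeminormFamily 𝕜 E ι) (hQ : WithSeminorms Q)
    (C : Set (WeakSpace 𝕜 E)) (hne : C.Nonempty) (hC : IsCompact C)
    (hconv : ∀ x ∈ C, ∀ y ∈ C, ∀ a b : ℝ, 0 ≤ a → 0 ≤ b → a + b = 1 →
      (a : 𝕜) • x + (b : 𝕜) • y ∈ C)
    (T : S → C → C) (hmul : ∀ s t x, T (s * t) x = T s (T t x))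
    (hT : ∀ s, Continuous (T s)) (hTc : ∀ x, Continuous fun s => T s x)
    (hqe : ∀ g ∈ closure (range T), Continuous g)
    (hnonexp : ∀ (s : S) (i : ι) (x y : C),
      Q i ((toWeakSpace 𝕜 E).symm (T s x) - (toWeakSpace 𝕜 E).symm (T s y)) ≤
        Q i ((toWeakSpace 𝕜 E).symm x - (toWeakSpace 𝕜 E).symm y)) :
    ∃ x : C, ∀ s, T s x = x := by
  obtain ⟨m, hm⟩ := hS
  have : Nonempty S := nonempty_of_LIM m hm
  let _ : Module ℝ E := Module.compHom E (algebraMap ℝ 𝕜)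
  have hsm : ∀ (r : ℝ) (x : E), r • x = ((r : ℝ) : 𝕜) • x := fun r x => rfl
  have : IsScalarTower ℝ 𝕜 E := ⟨fun r c x => by
    rw [hsm, RCLike.real_smul_eq_coe_mul, mul_smul]⟩
  have := hQ.topologicalAddGroup
  have := hQ.continuousSMul
  have := hQ.toPolynormableSpace
  have : LocallyConvexSpace ℝ E := hQ.toLocallyConvexSpace
  have : CompactSpace C := isCompact_iff_compactSpace.1 hC
  have : SeparatingDual 𝕜 E := ⟨fun x hx => by
    obtain ⟨i, hi⟩ := hQ.separating_of_T1 x hx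
    obtain ⟨g, hg, -⟩ := hb (Q i) (hQ.continuous_seminorm i) x
    refine ⟨g, ?_⟩
    rw [hg]
    exact_mod_cast hi⟩
  let φ : C → E := fun x => ee 𝕜 E x.1
  have hφ : Function.Injective φ := fun x y h => Subtype.ext ((ee 𝕜 E).injective h)
  have hPchain : ∀ c : Set (Set C), c.Nonempty →
      (∀ s ∈ c, Invt T s ∧ Convex ℝ (φ '' s)) → Invt T (⋂₀ c) ∧ Convex ℝ (φ '' ⋂₀ c) := by
    intro c hc hcs
    refine ⟨fun s x hx A hA => (hcs A hA).1 s x (hx A hA), ?_⟩
    have : φ '' ⋂₀ c = ⋂ A ∈ c, φ '' A := by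
      rw [sInter_eq_biInter]
      exact hφ.injOn.image_biInter_eq hc
    rw [this]
    exact convex_iInter₂ fun A hA => (hcs A hA).2
  obtain ⟨M, -, hMcl, hMne, ⟨hMinv, hMconv⟩, hMmin⟩ := exists_minimal_closed
    (fun s : Set C => Invt T s ∧ Convex ℝ (φ '' s)) hPchain univ isClosed_univ
    (by
      obtain ⟨x, hx⟩ := hne
      exact ⟨⟨x, hx⟩, mem_univ _⟩) (by
      refine ⟨fun _ _ _ => mem_univ _, ?_⟩
      rintro _ ⟨x, -, rfl⟩ _ ⟨y, -, rfl⟩ a b ha hb hab
      refine ⟨⟨_, hconv x.1 x.2 y.1 y.2 a b ha hb hab⟩, mem_univ _, ?_⟩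
      simp only [φ, hsm, map_add, map_smul])
  obtain ⟨K, hKM, hKcl, hKne, hKinv, hKmin⟩ := exists_minimal_closed
    (fun s : Set C => Invt T s) (fun c _ hcs s x hx A hA => hcs A hA s x (hx A hA)) M hMcl hMne hMinv
  have hK : IsMin T K := ⟨hKcl, hKne, hKinv, hKmin⟩
  obtain ⟨x₀, hx₀⟩ := hKne
  obtain ⟨Λ, hΛ⟩ := exists_mean hT hTc hmul hqe m hm x₀
  have hall : ∀ x ∈ K, ∀ y ∈ K, x = y := by
    intro x hx y hy
    apply hφ
    by_contra hxy
    obtain ⟨i, hi⟩ := hQ.separating_of_T1 (φ x - φ y) (sub_ne_zero.2 hxy)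
    apply hi
    have hpc : Continuous (Q i) := hQ.continuous_seminorm i
    refine diam_zero (E := E) hT hmul φ hMcl hMinv hMconv hMmin hKM hK hx₀ hΛ
      ((Q i).restrictScalars ℝ) ?_ ?_ ?_ x y hx hy
    · intro y r
      exact (isClosed_ball (Q i) hpc (φ y) r).preimage continuous_subtype_val
    · intro s x y
      exact hnonexp s i x y
    · intro ε hε
      obtain ⟨y₀, ⟨y₁, hy₁, hy₁'⟩, O, hO, hyO, hfr⟩ := frag (Q i) hpc (Subtype.val '' K)
        (hKcl.isCompact.image continuous_subtype_val) ⟨_, x₀, hx₀, rfl⟩ ε hε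
      subst hy₁'
      refine ⟨y₁, hy₁, Subtype.val ⁻¹' O, hO.preimage continuous_subtype_val, hyO, ?_⟩
      intro z hz hzO
      exact hfr z.1 ⟨z, hz, rfl⟩ hzO
  exact ⟨x₀, fun s => hall _ (hKinv s x₀ hx₀) _ hx₀⟩

end Pool.Agent.Y972.WAP
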