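import Pool.Agent.Y972.WAP.Groth
import Pool.Agent.Y972.WAP.Core
import Pool.Agent.Y972.WAP.Defs

/-!
# From a left invariant mean on `WAP(S)` to an invariant mean over an orbit
-/

set_option autoImplicit false
set_option linter.unusedSectionVars false
set_option linter.deprecated false

open Filter Topology Set
open scoped BoundedContinuousFunction

namespace Pool.Agent.Y972.WAP

variable {𝕂 S : Type*} [RCLike 𝕂] [Semigroup S] [TopologicalSpace S] [SeparatelyContinuousMul S]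
variable {X : Type*} [TopologicalSpace X] [CompactSpace X] [T2Space X]
variable {T : S → X → X}

variable (𝕂) in
/-- the function `s ↦ h (T s x₀)` -/
noncomputable def orb (hTc : ∀ x, Continuous fun s => T s x) (x₀ : X) : C(X, ℝ) →ₗ[ℝ] (S →ᵇ 𝕂) where
  toFun h := BoundedContinuousFunction.ofNormedAddCommGroup (fun s => ((h (T s x₀) : ℝ) : 𝕂))
    (RCLike.continuous_ofReal.comp (h.continuous.comp (hTc x₀))) ‖h‖ (fun s => by
      rw [RCLike.norm_ofReal]
      exact h.norm_coe_le_norm _)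
  map_add' h k := by
    ext s
    simp
  map_smul' c h := by
    ext s
    simp [RCLike.real_smul_eq_coe_mul]

theorem orb_apply (hTc : ∀ x, Continuous fun s => T s x) (x₀ : X) (h : C(X, ℝ)) (s : S) :
    orb 𝕂 hTc x₀ h s = ((h (T s x₀) : ℝ) : 𝕂) := rfl

theorem norm_orb_le (hTc : ∀ x, Continuous fun s => T s x) (x₀ : X) (h : C(X, ℝ)) :
    ‖orb 𝕂 hTc x₀ h‖ ≤ ‖h‖ := by
  rw [BoundedContinuousFunction.norm_le (norm_nonneg _)]
  intro s
  rw [orb_apply, RCLike.norm_ofReal]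
  exact h.norm_coe_le_norm _

theorem ltrans_orb (hT : ∀ s, Continuous (T s)) (hTc : ∀ x, Continuous fun s => T s x)
    (hmul : ∀ s t x, T (s * t) x = T s (T t x)) (x₀ : X) (h : C(X, ℝ)) (a : S) :
    ltrans a (orb 𝕂 hTc x₀ h) = orb 𝕂 hTc x₀ (h.comp ⟨T a, hT a⟩) := by
  ext t
  rw [ltrans_apply, orb_apply, orb_apply, hmul]
  rfl

theorem orb_mem (hT : ∀ s, Continuous (T s)) (hTc : ∀ x, Continuous fun s => T s x)
    (hmul : ∀ s t x, T (s * t) x = T s (T t x))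
    (hqe : ∀ g ∈ closure (range T), Continuous g) (x₀ : X) (h : C(X, ℝ)) :
    orb 𝕂 hTc x₀ h ∈ WAPspace 𝕂 S := by
  set K : Set (X → X) := closure (range T) with hK
  have hKc : IsCompact K := isClosed_closure.isCompact
  have : CompactSpace K := isCompact_iff_compactSpace.1 hKc
  let F : K → WeakSpace 𝕂 (S →ᵇ 𝕂) := fun σ =>
    toWeakSpace 𝕂 (S →ᵇ 𝕂) (orb 𝕂 hTc x₀ (h.comp ⟨σ.1, hqe σ.1 σ.2⟩))
  have hF : Continuous F := by
    refine WeakBilin.continuous_of_continuous_eval _ fun φ => ?_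
    change Continuous fun σ : K => φ (orb 𝕂 hTc x₀ (h.comp ⟨σ.1, hqe σ.1 σ.2⟩))
    let R : C(X, ℝ) →L[ℝ] (S →ᵇ 𝕂) := LinearMap.mkContinuous (orb 𝕂 hTc x₀) 1 (fun h => by
      rw [one_mul]
      exact norm_orb_le hTc x₀ h)
    let φr : (S →ᵇ 𝕂) →L[ℝ] 𝕂 := φ.restrictScalars ℝ
    have h1 := continuous_functional K hKc hqe h ((RCLike.reCLM (K := 𝕂)).comp (φr.comp R))
    have h2 := continuous_functional K hKc hqe h ((RCLike.imCLM (K := 𝕂)).comp (φr.comp R))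
    have h3 : (fun σ : K => φ (orb 𝕂 hTc x₀ (h.comp ⟨σ.1, hqe σ.1 σ.2⟩))) = fun σ : K =>
        ((((RCLike.reCLM (K := 𝕂)).comp (φr.comp R)) (h.comp ⟨σ.1, hqe σ.1 σ.2⟩) : ℝ) : 𝕂) +
        ((((RCLike.imCLM (K := 𝕂)).comp (φr.comp R)) (h.comp ⟨σ.1, hqe σ.1 σ.2⟩) : ℝ) : 𝕂) *
          RCLike.I := by
      funext σ
      exact (RCLike.re_add_im _).symm
    rw [h3]
    exact (RCLike.continuous_ofReal.comp h1).add
      ((RCLike.continuous_ofReal.comp h2).mul continuous_const)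
  rw [mem_WAPspace]
  have hr : IsCompact (range F) := isCompact_range hF
  refine hr.of_isClosed_subset isClosed_closure (closure_minimal ?_ hr.isClosed)
  rintro _ ⟨a, rfl⟩
  exact ⟨⟨T a, subset_closure ⟨a, rfl⟩⟩,
    congrArg (toWeakSpace 𝕂 (S →ᵇ 𝕂)) (ltrans_orb hT hTc hmul x₀ h a).symm⟩

/-- the mean over the orbit of `x₀` -/
theorem exists_mean (hT : ∀ s, Continuous (T s)) (hTc : ∀ x, Continuous fun s => T s x)
    (hmul : ∀ s t x, T (s * t) x = T s (T t x))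
    (hqe : ∀ g ∈ closure (range T), Continuous g)
    (m : WAPspace 𝕂 S →ₗ[𝕂] 𝕂) (hm : IsLIM m) (x₀ : X) :
    ∃ Λ : C(X, ℝ) →ₗ[ℝ] ℝ, IsMean T hT x₀ Λ := by
  have hmem := fun h => orb_mem (𝕂 := 𝕂) hT hTc hmul hqe x₀ h
  let Λ : C(X, ℝ) →ₗ[ℝ] ℝ :=
    { toFun := fun h => RCLike.re (m ⟨orb 𝕂 hTc x₀ h, hmem h⟩)
      map_add' := by
        intro h k
        rw [← map_add, ← map_add]
        congr 2
        exact Subtype.ext (map_add (orb 𝕂 hTc x₀) h k)
      map_smul' := by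
        intro c h
        have h1 : (⟨orb 𝕂 hTc x₀ (c • h), hmem (c • h)⟩ : WAPspace 𝕂 S) =
            (c : 𝕂) • ⟨orb 𝕂 hTc x₀ h, hmem h⟩ := by
          apply Subtype.ext
          ext s
          simp [orb_apply]
        rw [h1, map_smul, smul_eq_mul, RCLike.re_ofReal_mul]
        rfl }
  have hΛ : ∀ h, Λ h = RCLike.re (m ⟨orb 𝕂 hTc x₀ h, hmem h⟩) := fun h => rfl
  refine ⟨Λ, ?_, ?_, ?_⟩
  · intro h hh
    rw [hΛ]
    obtain ⟨r, hr, hr'⟩ := hm.pos ⟨orb 𝕂 hTc x₀ h, hmem h⟩ (fun t => ⟨h (T t x₀), hh t, rfl⟩)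
    rw [hr', RCLike.ofReal_re]
    exact hr
  · rw [hΛ]
    have h1 : (⟨orb 𝕂 hTc x₀ 1, hmem 1⟩ : WAPspace 𝕂 S) = ⟨1, one_mem_WAPspace⟩ := by
      apply Subtype.ext
      ext s
      simp [orb_apply]
    rw [h1, hm.one, RCLike.one_re]
  · intro a h
    rw [hΛ, hΛ, ← hm.inv a ⟨orb 𝕂 hTc x₀ h, hmem h⟩]
    congr 2
    exact Subtype.ext (ltrans_orb hT hTc hmul x₀ h a).symm

/-- a semigroup with a left invariant mean on `WAP(S)` is not empty -/
theorem nonempty_of_LIM (m : WAPspace 𝕂 S →ₗ[𝕂] 𝕂) (hm : IsLIM m) : Nonempty S := by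
  by_contra h
  rw [not_nonempty_iff] at h
  have h1 : (⟨1, one_mem_WAPspace⟩ : WAPspace 𝕂 S) = 0 := by
    apply Subtype.ext
    ext s
    exact h.elim s
  have h2 := hm.one
  rw [h1, map_zero] at h2
  exact zero_ne_one h2

end Pool.Agent.Y972.WAP
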